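import Pool.Agent.H46.Lib.R_seed8.H341R2.NF.Sys

/-! Bessel's inequality at the edge, with almost orthogonality in the mean. -/

set_option autoImplicit false

namespace Pool.Agent.H341R2

open Complex Filter Topology ComplexConjugate

namespace NormSys

variable (S : NormSys)

theorem bessel_ineq {κ : Type*} [DecidableEq κ] (K : Finset κ) (t : S.X → ℂ)
    (v : κ → S.X → ℂ) (m : κ → ℝ) (b : ℝ) (ht : ∀ p, ‖t p‖ ≤ b) (hv : ∀ k p, ‖v k p‖ ≤ 1)
    {ε : ℝ} (hε : 0 < ε) :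
    0 ≤ b ^ 2 * S.lam ε + (∑ k ∈ K, 2 * (m k * S.E ε fun p => (t p * conj (v k p)).re) +
          ∑ k ∈ K, ∑ l ∈ K, (m k * m l) * S.E ε fun p => (v k p * conj (v l p)).re) := by
  have hb0 : 0 ≤ b := (norm_nonneg _).trans (ht S.nonempty.some)
  -- pointwise identity
  have hpt : ∀ p, ‖t p + ∑ k ∈ K, (m k : ℂ) * v k p‖ ^ 2 =
      ‖t p‖ ^ 2 + (∑ k ∈ K, 2 * (m k * (t p * conj (v k p)).re) +
        ∑ k ∈ K, ∑ l ∈ K, (m k * m l) * (v k p * conj (v l p)).re) := by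
    intro p
    have e1 : ‖t p + ∑ k ∈ K, (m k : ℂ) * v k p‖ ^ 2 =
        ((t p + ∑ k ∈ K, (m k : ℂ) * v k p) * conj (t p + ∑ k ∈ K, (m k : ℂ) * v k p)).re := by
      rw [Complex.mul_conj, Complex.ofReal_re, Complex.normSq_eq_norm_sq]
    have e2 : ‖t p‖ ^ 2 = (t p * conj (t p)).re := by
      rw [Complex.mul_conj, Complex.ofReal_re, Complex.normSq_eq_norm_sq]
    have e3 : ((∑ k ∈ K, (m k : ℂ) * v k p) * conj (t p)).re =
        (t p * conj (∑ k ∈ K, (m k : ℂ) * v k p)).re := by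
      rw [← Complex.conj_re, map_mul, Complex.conj_conj, mul_comm]
    have e4 : (t p * conj (∑ k ∈ K, (m k : ℂ) * v k p)).re =
        ∑ k ∈ K, m k * (t p * conj (v k p)).re := by
      rw [map_sum, Finset.mul_sum, Complex.re_sum]
      refine Finset.sum_congr rfl fun k _ => ?_
      rw [map_mul, Complex.conj_ofReal, mul_left_comm, Complex.re_ofReal_mul]
    have e5 : ((∑ k ∈ K, (m k : ℂ) * v k p) * conj (∑ k ∈ K, (m k : ℂ) * v k p)).re =
        ∑ k ∈ K, ∑ l ∈ K, (m k * m l) * (v k p * conj (v l p)).re := by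
      rw [map_sum, Finset.sum_mul_sum, Complex.re_sum]
      refine Finset.sum_congr rfl fun k _ => ?_
      rw [Complex.re_sum]
      refine Finset.sum_congr rfl fun l _ => ?_
      rw [map_mul, Complex.conj_ofReal]
      have : (m k : ℂ) * v k p * ((m l : ℂ) * conj (v l p)) =
          ((m k * m l : ℝ) : ℂ) * (v k p * conj (v l p)) := by
        push_cast; ring
      rw [this, Complex.re_ofReal_mul]
    rw [e1, map_add, add_mul, mul_add, mul_add, Complex.add_re, Complex.add_re, Complex.add_re,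
      e3, e4, e5, e2, ← Finset.mul_sum]
    ring
  have hbt : ∀ p, |‖t p‖ ^ 2| ≤ b ^ 2 := by
    intro p
    rw [abs_of_nonneg (sq_nonneg _)]
    exact pow_le_pow_left₀ (norm_nonneg _) (ht p) 2
  have hb1 : ∀ k p, |(t p * conj (v k p)).re| ≤ b := by
    intro k p
    refine (Complex.abs_re_le_norm _).trans ?_
    rw [norm_mul, Complex.norm_conj]
    calc ‖t p‖ * ‖v k p‖ ≤ b * 1 := mul_le_mul (ht p) (hv k p) (norm_nonneg _) hb0
      _ = b := mul_one b
  have hb2 : ∀ k l p, |(v k p * conj (v l p)).re| ≤ 1 := by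
    intro k l p
    refine (Complex.abs_re_le_norm _).trans ?_
    rw [norm_mul, Complex.norm_conj]
    exact mul_le_one₀ (hv k p) (norm_nonneg _) (hv l p)
  have hb1' : ∀ k p, |2 * (m k * (t p * conj (v k p)).re)| ≤ 2 * (|m k| * b) := by
    intro k p
    rw [abs_mul, abs_mul, abs_two]
    gcongr
    exact hb1 k p
  have hb2' : ∀ k l p, |m k * m l * (v k p * conj (v l p)).re| ≤ |m k * m l| * 1 := by
    intro k l p
    rw [abs_mul]
    gcongr
    exact hb2 k l p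
  have hS2 : ∀ k p, |∑ l ∈ K, m k * m l * (v k p * conj (v l p)).re| ≤
      ∑ l ∈ K, |m k * m l| * 1 := fun k p =>
    (Finset.abs_sum_le_sum_abs _ _).trans (Finset.sum_le_sum fun l _ => hb2' k l p)
  have hexp : S.E ε (fun p => ‖t p + ∑ k ∈ K, (m k : ℂ) * v k p‖ ^ 2) =
      S.E ε (fun p => ‖t p‖ ^ 2) + (∑ k ∈ K, 2 * (m k * S.E ε fun p => (t p * conj (v k p)).re) +
        ∑ k ∈ K, ∑ l ∈ K, (m k * m l) * S.E ε fun p => (v k p * conj (v l p)).re) := by
    have s1 : ∀ p, |∑ k ∈ K, 2 * (m k * (t p * conj (v k p)).re)| ≤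
        ∑ k ∈ K, 2 * (|m k| * b) := fun p =>
      (Finset.abs_sum_le_sum_abs _ _).trans (Finset.sum_le_sum fun k _ => hb1' k p)
    have s2 : ∀ p, |∑ k ∈ K, ∑ l ∈ K, (m k * m l) * (v k p * conj (v l p)).re| ≤
        ∑ k ∈ K, ∑ l ∈ K, |m k * m l| * 1 := fun p =>
      (Finset.abs_sum_le_sum_abs _ _).trans (Finset.sum_le_sum fun k _ => hS2 k p)
    rw [funext hpt, S.E_add hε hbt (B' := ∑ k ∈ K, 2 * (|m k| * b) +
      ∑ k ∈ K, ∑ l ∈ K, |m k * m l| * 1)
      (fun p => (abs_add_le _ _).trans (add_le_add (s1 p) (s2 p))), S.E_add hε s1 s2,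
      S.E_sum hε K _ (fun k => 2 * (|m k| * b)) (fun k _ p => hb1' k p),
      S.E_sum hε K _ (fun k => ∑ l ∈ K, |m k * m l| * 1) (fun k _ p => hS2 k p)]
    congr 2
    · refine Finset.sum_congr rfl fun k _ => ?_
      rw [S.E_const_mul, E_const_mul]
    · refine Finset.sum_congr rfl fun k _ => ?_
      rw [S.E_sum hε K _ (fun l => |m k * m l| * 1) (fun l _ p => hb2' k l p)]
      refine Finset.sum_congr rfl fun l _ => ?_
      rw [E_const_mul]
  have hpos : 0 ≤ S.E ε (fun p => ‖t p + ∑ k ∈ K, (m k : ℂ) * v k p‖ ^ 2) :=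
    S.E_nonneg fun p => sq_nonneg _
  rw [hexp] at hpos
  have hA : S.E ε (fun p => ‖t p‖ ^ 2) ≤ b ^ 2 * S.lam ε :=
    S.E_le hε hbt fun p => (le_abs_self _).trans (hbt p)
  linarith

/-- the weighted mean of `φ` at the edge is zero -/
def Negl (φ : S.X → ℝ) : Prop :=
  ∀ η : ℝ, 0 < η → ∀ᶠ ε : ℝ in 𝓝[>] 0, |S.E ε φ| ≤ η * S.lam ε

theorem bessel' {κ : Type*} [DecidableEq κ] (K : Finset κ) (t : S.X → ℂ)
    (v : κ → S.X → ℂ) (m : κ → ℝ) (b : ℝ) (ht : ∀ p, ‖t p‖ ≤ b) (hv : ∀ k p, ‖v k p‖ ≤ 1)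
    (horth : ∀ k ∈ K, ∀ l ∈ K, k ≠ l → S.Negl fun p => (v k p * conj (v l p)).re)
    (hcorr : ∀ k ∈ K, ∀ η : ℝ, 0 < η → ∀ᶠ ε : ℝ in 𝓝[>] 0,
      m k * (S.E ε fun p => (t p * conj (v k p)).re) ≤ -(m k) ^ 2 * S.lam ε + η * S.lam ε) :
    ∑ k ∈ K, (m k) ^ 2 ≤ b ^ 2 := by
  by_contra hcon
  push Not at hcon
  set δ : ℝ := ∑ k ∈ K, (m k) ^ 2 - b ^ 2 with hδ
  have hδ0 : 0 < δ := by linarith
  set M : ℝ := 2 * (K.card : ℝ) + ∑ k ∈ K, ∑ l ∈ K, |m k * m l| with hM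
  have hM0 : 0 ≤ M := by positivity
  set η : ℝ := δ / (2 * (M + 1)) with hη
  have hη0 : 0 < η := by positivity
  have ev1 : ∀ᶠ ε : ℝ in 𝓝[>] 0, ∀ k ∈ K, ∀ l ∈ K, k ≠ l →
      |S.E ε fun p => (v k p * conj (v l p)).re| ≤ η * S.lam ε := by
    rw [Filter.eventually_all_finset]
    intro k hk
    rw [Filter.eventually_all_finset]
    intro l hl
    by_cases hkl : k = l
    · exact Filter.Eventually.of_forall fun _ h => absurd hkl h
    · filter_upwards [horth k hk l hl hkl η hη0] with ε h _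
      exact h
  have ev2 : ∀ᶠ ε : ℝ in 𝓝[>] 0, ∀ k ∈ K,
      m k * (S.E ε fun p => (t p * conj (v k p)).re) ≤ -(m k) ^ 2 * S.lam ε + η * S.lam ε := by
    rw [Filter.eventually_all_finset]
    exact fun k hk => hcorr k hk η hη0
  have ev3 : ∀ᶠ ε : ℝ in 𝓝[>] 0, ε ∈ Set.Ioi (0 : ℝ) := self_mem_nhdsWithin
  obtain ⟨ε, h1, h2, h3, h4⟩ := (ev1.and (ev2.and (ev3.and
    (S.lam_tendsto.eventually_gt_atTop 0)))).exists
  have hε : (0 : ℝ) < ε := h3
  have hpos := S.bessel_ineq K t v m b ht hv hε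
  have hB : ∑ k ∈ K, 2 * (m k * S.E ε fun p => (t p * conj (v k p)).re) ≤
      ∑ k ∈ K, 2 * (-(m k) ^ 2 * S.lam ε + η * S.lam ε) :=
    Finset.sum_le_sum fun k hk => mul_le_mul_of_nonneg_left (h2 k hk) (by norm_num)
  have hb2 : ∀ k l p, |(v k p * conj (v l p)).re| ≤ 1 := by
    intro k l p
    refine (Complex.abs_re_le_norm _).trans ?_
    rw [norm_mul, Complex.norm_conj]
    exact mul_le_one₀ (hv k p) (norm_nonneg _) (hv l p)
  have hCC : ∑ k ∈ K, ∑ l ∈ K, (m k * m l) * (S.E ε fun p => (v k p * conj (v l p)).re) ≤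
      ∑ k ∈ K, ((m k) ^ 2 * S.lam ε + ∑ l ∈ K, |m k * m l| * (η * S.lam ε)) := by
    refine Finset.sum_le_sum fun k hk => ?_
    rw [← Finset.add_sum_erase K _ hk,
      ← Finset.add_sum_erase K (fun l => |m k * m l| * (η * S.lam ε)) hk]
    have d1 : (m k * m k) * (S.E ε fun p => (v k p * conj (v k p)).re) ≤ (m k) ^ 2 * S.lam ε := by
      rw [← sq]
      refine mul_le_mul_of_nonneg_left ?_ (sq_nonneg _)
      have := S.E_le hε (hb2 k k) (b := 1) fun p => (le_abs_self _).trans (hb2 k k p)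
      linarith
    have d2 : ∑ l ∈ K.erase k, (m k * m l) * (S.E ε fun p => (v k p * conj (v l p)).re) ≤
        ∑ l ∈ K.erase k, |m k * m l| * (η * S.lam ε) := by
      refine Finset.sum_le_sum fun l hl => ?_
      rw [Finset.mem_erase] at hl
      refine (le_abs_self _).trans ?_
      rw [abs_mul]
      exact mul_le_mul_of_nonneg_left (h1 k hk l hl.2 (Ne.symm hl.1)) (abs_nonneg _)
    have d3 : 0 ≤ |m k * m k| * (η * S.lam ε) := by positivity
    linarith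
  have e6 : ∑ k ∈ K, 2 * (-(m k) ^ 2 * S.lam ε + η * S.lam ε) =
      -2 * (∑ k ∈ K, (m k) ^ 2) * S.lam ε + 2 * K.card * (η * S.lam ε) := by
    rw [← Finset.mul_sum, Finset.sum_add_distrib, ← Finset.sum_mul, Finset.sum_neg_distrib,
      Finset.sum_const, nsmul_eq_mul]
    ring
  have e7 : ∑ k ∈ K, ((m k) ^ 2 * S.lam ε + ∑ l ∈ K, |m k * m l| * (η * S.lam ε)) =
      (∑ k ∈ K, (m k) ^ 2) * S.lam ε + (∑ k ∈ K, ∑ l ∈ K, |m k * m l|) * (η * S.lam ε) := by
    rw [Finset.sum_add_distrib, ← Finset.sum_mul, Finset.sum_mul]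
    simp only [Finset.sum_mul]
  rw [e6] at hB
  rw [e7] at hCC
  have h5 : 0 ≤ -δ * S.lam ε + M * (η * S.lam ε) := by
    rw [hδ, hM]
    linarith
  have h6 : M * (η * S.lam ε) ≤ δ / 2 * S.lam ε := by
    have h7 : M * η ≤ δ / 2 := by
      have : (M + 1) * η = δ / 2 := by
        rw [hη]
        field_simp
      nlinarith
    calc M * (η * S.lam ε) = (M * η) * S.lam ε := by ring
      _ ≤ δ / 2 * S.lam ε := mul_le_mul_of_nonneg_right h7 h4.le
  nlinarith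

end NormSys

end Pool.Agent.H341R2
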