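import Pool.Agent.H46.Lib.R_seed8.H341R2.WeilSharp

/-! Counting points on Weierstrass curves over finite fields of characteristic prime to 6. -/

set_option autoImplicit false

namespace Pool.Agent.H341R2.EC

open Polynomial Finset

section
variable {k : Type*} [Field k]

/-- number of affine points of a Weierstrass equation -/
noncomputable def aff (V : WeierstrassCurve k) : ℕ :=
  Nat.card {p : k × k // p.2 ^ 2 + V.a₁ * p.1 * p.2 + V.a₃ * p.2 =
    p.1 ^ 3 + V.a₂ * p.1 ^ 2 + V.a₄ * p.1 + V.a₆}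

/-- number of solutions of `Y² = X³ - 27 c X - 54 c'` -/
noncomputable def short (c c' : k) : ℕ :=
  Nat.card {p : k × k // p.2 ^ 2 = p.1 ^ 3 - 27 * c * p.1 - 54 * c'}

theorem aff_eq_short (h6 : (6 : k) ≠ 0) (V : WeierstrassCurve k) :
    aff V = short V.c₄ V.c₆ := by
  have h2 : (2 : k) ≠ 0 := by
    intro h; apply h6
    have : (6 : k) = 3 * 2 := by norm_num
    rw [this, h, mul_zero]
  have h3 : (3 : k) ≠ 0 := by
    intro h; apply h6
    have : (6 : k) = 2 * 3 := by norm_num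
    rw [this, h, mul_zero]
  have h36 : (36 : k) ≠ 0 := by
    have : (36 : k) = 6 * 6 := by norm_num
    rw [this]; exact mul_ne_zero h6 h6
  have h108 : (108 : k) ≠ 0 := by
    have : (108 : k) = 36 * 3 := by norm_num
    rw [this]; exact mul_ne_zero h36 h3
  have h216 : (216 : k) ≠ 0 := by
    have : (216 : k) = 36 * 6 := by norm_num
    rw [this]; exact mul_ne_zero h36 h6
  unfold aff short
  apply Nat.card_congr
  have key : ∀ x y : k, (108 * (2 * y + V.a₁ * x + V.a₃)) ^ 2 -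
      ((36 * x + 3 * V.b₂) ^ 3 - 27 * V.c₄ * (36 * x + 3 * V.b₂) - 54 * V.c₆) =
      46656 * (y ^ 2 + V.a₁ * x * y + V.a₃ * y - (x ^ 3 + V.a₂ * x ^ 2 + V.a₄ * x + V.a₆)) := by
    intro x y
    simp only [WeierstrassCurve.c₄, WeierstrassCurve.c₆, WeierstrassCurve.b₂, WeierstrassCurve.b₄,
      WeierstrassCurve.b₆]
    ring
  have h46656 : (46656 : k) ≠ 0 := by
    have : (46656 : k) = 216 * 216 := by norm_num
    rw [this]; exact mul_ne_zero h216 h216
  refine ⟨fun p => ⟨(36 * p.1.1 + 3 * V.b₂, 108 * (2 * p.1.2 + V.a₁ * p.1.1 + V.a₃)), ?_⟩,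
    fun p => ⟨((p.1.1 - 3 * V.b₂) / 36, (p.1.2 / 108 - V.a₁ * ((p.1.1 - 3 * V.b₂) / 36) - V.a₃) / 2),
      ?_⟩, ?_, ?_⟩
  · have h := key p.1.1 p.1.2
    rw [sub_eq_zero.2 p.2, mul_zero, sub_eq_zero] at h
    exact h
  · have h := key ((p.1.1 - 3 * V.b₂) / 36)
      ((p.1.2 / 108 - V.a₁ * ((p.1.1 - 3 * V.b₂) / 36) - V.a₃) / 2)
    have e1 : 36 * ((p.1.1 - 3 * V.b₂) / 36) + 3 * V.b₂ = p.1.1 := by
      field_simp
      ring
    have e2 : 108 * (2 * ((p.1.2 / 108 - V.a₁ * ((p.1.1 - 3 * V.b₂) / 36) - V.a₃) / 2) +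
        V.a₁ * ((p.1.1 - 3 * V.b₂) / 36) + V.a₃) = p.1.2 := by
      rw [mul_div_cancel₀ _ h2]
      have : p.1.2 / 108 - V.a₁ * ((p.1.1 - 3 * V.b₂) / 36) - V.a₃ +
        V.a₁ * ((p.1.1 - 3 * V.b₂) / 36) + V.a₃ = p.1.2 / 108 := by ring
      rw [this, mul_div_cancel₀ _ h108]
    rw [e1, e2, p.2, sub_self] at h
    have h4 := (mul_eq_zero.1 h.symm).resolve_left h46656
    exact sub_eq_zero.1 h4
  · rintro ⟨⟨x, y⟩, h⟩
    apply Subtype.ext
    apply Prod.ext
    · simp only
      field_simp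
      ring
    · simp only
      have e1 : (36 * x + 3 * V.b₂ - 3 * V.b₂) / 36 = x := by
        rw [add_sub_cancel_right, mul_div_cancel_left₀ _ h36]
      rw [e1, mul_div_cancel_left₀ _ h108]
      have : 2 * y + V.a₁ * x + V.a₃ - V.a₁ * x - V.a₃ = 2 * y := by ring
      rw [this, mul_div_cancel_left₀ _ h2]
  · rintro ⟨⟨X, Y⟩, h⟩
    apply Subtype.ext
    apply Prod.ext
    · simp only
      field_simp
      ring
    · simp only
      rw [mul_div_cancel₀ _ h2]
      have : Y / 108 - V.a₁ * ((X - 3 * V.b₂) / 36) - V.a₃ +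
        V.a₁ * ((X - 3 * V.b₂) / 36) + V.a₃ = Y / 108 := by ring
      rw [this, mul_div_cancel₀ _ h108]

theorem short_scale {u : k} (hu : u ≠ 0) (c c' : k) :
    short (u ^ 4 * c) (u ^ 6 * c') = short c c' := by
  unfold short
  apply Nat.card_congr
  refine ⟨fun p => ⟨(p.1.1 / u ^ 2, p.1.2 / u ^ 3), ?_⟩, fun p => ⟨(u ^ 2 * p.1.1, u ^ 3 * p.1.2), ?_⟩,
    ?_, ?_⟩
  · have h := p.2
    simp only
    field_simp
    rw [h]
    ring
  · have h := p.2
    simp only
    calc (u ^ 3 * p.1.2) ^ 2 = u ^ 6 * p.1.2 ^ 2 := by ring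
      _ = u ^ 6 * (p.1.1 ^ 3 - 27 * c * p.1.1 - 54 * c') := by rw [h]
      _ = _ := by ring
  · rintro ⟨⟨x, y⟩, h⟩
    apply Subtype.ext
    apply Prod.ext <;> simp only <;> field_simp
  · rintro ⟨⟨x, y⟩, h⟩
    apply Subtype.ext
    apply Prod.ext <;> simp only <;> field_simp

/-- the cubic `X³ - 27 c X - 54 c'` -/
noncomputable def cub (c c' : k) : k[X] := X ^ 3 - C (27 * c) * X - C (54 * c')

theorem cub_eval (c c' x : k) : (cub c c').eval x = x ^ 3 - 27 * c * x - 54 * c' := by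
  unfold cub
  simp

theorem cub_natDegree (c c' : k) : (cub c c').natDegree = 3 := by
  unfold cub
  compute_degree!

theorem cub_separable (h6 : (6 : k) ≠ 0) {c c' : k} (h : c ^ 3 - c' ^ 2 ≠ 0) :
    (cub c c').Separable := by
  have h3 : (3 : k) ≠ 0 := by
    intro h; apply h6
    have : (6 : k) = 2 * 3 := by norm_num
    rw [this, h, mul_zero]
  have h2 : (2 : k) ≠ 0 := by
    intro h; apply h6
    have : (6 : k) = 3 * 2 := by norm_num
    rw [this, h, mul_zero]
  have hD : (78732 * (c ^ 3 - c' ^ 2) : k) ≠ 0 := by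
    apply mul_ne_zero _ h
    have : (78732 : k) = 2 ^ 2 * 3 ^ 9 := by norm_num
    rw [this]
    exact mul_ne_zero (pow_ne_zero _ h2) (pow_ne_zero _ h3)
  -- `4A³ + 27B²` with `A = -27c`, `B = -54c'`
  have hder : derivative (cub c c') = C 3 * X ^ 2 - C (27 * c) := by
    unfold cub
    simp only [derivative_sub, derivative_X_pow, derivative_mul, derivative_C, derivative_X,
      zero_mul, mul_one, zero_add, sub_zero]
    norm_num
  have key : (C (-486 * c) * X + C (1458 * c')) * cub c c' +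
      (C (162 * c) * X ^ 2 - C (486 * c') * X - C (2916 * c ^ 2)) * derivative (cub c c') =
      C (78732 * (c ^ 3 - c' ^ 2)) := by
    rw [hder]
    unfold cub
    simp only [map_mul, map_sub, map_pow, map_neg, map_ofNat]
    ring
  refine ⟨C ((78732 * (c ^ 3 - c' ^ 2))⁻¹) * (C (-486 * c) * X + C (1458 * c')),
    C ((78732 * (c ^ 3 - c' ^ 2))⁻¹) * (C (162 * c) * X ^ 2 - C (486 * c') * X -
      C (2916 * c ^ 2)), ?_⟩
  rw [mul_assoc, mul_assoc, ← mul_add, key, ← C_mul, inv_mul_cancel₀ hD, C_1]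

end

section
variable {k : Type*} [Field k] [Fintype k] [DecidableEq k]

theorem short_eq (h6 : (6 : k) ≠ 0) (c c' : k) :
    (short c c' : ℤ) = Fintype.card k + ∑ x : k, quadraticChar k ((cub c c').eval x) := by
  have h2 : (2 : k) ≠ 0 := by
    intro h; apply h6
    have : (6 : k) = 3 * 2 := by norm_num
    rw [this, h, mul_zero]
  have hk : ringChar k ≠ 2 := by
    intro h
    apply h2
    have := ringChar.Nat.cast_ringChar (R := k)
    rw [h] at this
    exact_mod_cast this
  unfold short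
  have e : {p : k × k // p.2 ^ 2 = p.1 ^ 3 - 27 * c * p.1 - 54 * c'} ≃
      (x : k) × {y : k // y ^ 2 = (cub c c').eval x} :=
    { toFun := fun p => ⟨p.1.1, ⟨p.1.2, by rw [cub_eval]; exact p.2⟩⟩
      invFun := fun q => ⟨(q.1, q.2.1), (q.2.2).trans (cub_eval _ _ _)⟩
      left_inv := fun p => rfl
      right_inv := fun q => rfl }
  rw [Nat.card_congr e, Nat.card_eq_fintype_card, Fintype.card_sigma]
  push_cast
  have h1 : ∀ x : k, (Fintype.card {y : k // y ^ 2 = (cub c c').eval x} : ℤ) =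
      1 + quadraticChar k ((cub c c').eval x) := by
    intro x
    rw [add_comm, ← quadraticChar_card_sqrts hk, Set.toFinset_card]
    congr 1
  rw [sum_congr rfl fun x _ => h1 x, sum_add_distrib]
  simp

/-- the character sum of the curve -/
noncomputable def csum (c c' : k) : ℤ := ∑ x : k, quadraticChar k ((cub c c').eval x)

theorem csum_twist {d : k} (hd : d ≠ 0) (c c' : k) :
    csum (d ^ 2 * c) (d ^ 3 * c') = quadraticChar k d * csum c c' := by
  unfold csum
  rw [mul_sum]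
  have h1 : ∀ x : k, quadraticChar k ((cub (d ^ 2 * c) (d ^ 3 * c')).eval (d * x)) =
      quadraticChar k d * quadraticChar k ((cub c c').eval x) := by
    intro x
    have h2 : (cub (d ^ 2 * c) (d ^ 3 * c')).eval (d * x) = d ^ 2 * (d * (cub c c').eval x) := by
      rw [cub_eval, cub_eval]
      ring
    rw [h2, map_mul, map_mul, quadraticChar_sq_one' hd, one_mul]
  rw [← sum_congr rfl fun x _ => h1 x]
  exact (Fintype.sum_equiv (Equiv.mulLeft₀ d hd) _ _ fun x => rfl).symm

/-- **Hasse's bound** -/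
theorem csum_bound (h6 : (6 : k) ≠ 0) {c c' : k} (h : c ^ 3 - c' ^ 2 ≠ 0) :
    |(csum c c' : ℝ)| ≤ 2 * Real.sqrt (Fintype.card k) := by
  have h2 : (2 : k) ≠ 0 := by
    intro h; apply h6
    have : (6 : k) = 3 * 2 := by norm_num
    rw [this, h, mul_zero]
  have hk : ringChar k ≠ 2 := by
    intro h
    apply h2
    have := ringChar.Nat.cast_ringChar (R := k)
    rw [h] at this
    exact_mod_cast this
  have hsep := cub_separable h6 h
  have hdeg := cub_natDegree c c'
  have h1 := Sharp.weil_sharp hk (cub c c') (by omega) (by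
    intro a q hq
    have ha : a ≠ 0 := by
      rintro rfl
      rw [C_0, zero_mul] at hq
      rw [hq] at hdeg
      simp at hdeg
    have hqd : 2 * q.natDegree = 3 := by
      rw [hq, natDegree_C_mul ha, natDegree_pow] at hdeg
      exact hdeg
    omega)
  rw [hdeg] at h1
  unfold csum
  push_cast
  refine h1.trans (le_of_eq ?_)
  norm_num

end

end Pool.Agent.H341R2.EC
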