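import Pool.Agent.H46.Lib.R_seed8.H341R2.NF.Orth
import Pool.Agent.H46.Lib.R_seed8.H341R2.NF.ECCount
import Pool.Agent.H46.Lib.R_seed8.H341R2.NF.LocalUnit

/-! Minimal models of quadratic twists at the good primes. -/

set_option autoImplicit false

namespace Pool.Agent.H341R2.EC

open NumberField IsDedekindDomain Pool.Agent.H921R2.TatePole Pool.Agent.H341R2

section local_model

variable {k : Type*} [Field k] [Fintype k]

theorem aff_le (V : WeierstrassCurve k) : aff V ≤ 2 * Fintype.card k := by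
  classical
  unfold aff
  have e : {p : k × k // p.2 ^ 2 + V.a₁ * p.1 * p.2 + V.a₃ * p.2 =
      p.1 ^ 3 + V.a₂ * p.1 ^ 2 + V.a₄ * p.1 + V.a₆} ≃
      (x : k) × {y : k // y ^ 2 + V.a₁ * x * y + V.a₃ * y =
        x ^ 3 + V.a₂ * x ^ 2 + V.a₄ * x + V.a₆} :=
    { toFun := fun p => ⟨p.1.1, ⟨p.1.2, p.2⟩⟩
      invFun := fun q => ⟨(q.1, q.2.1), q.2.2⟩
      left_inv := fun p => rfl
      right_inv := fun q => rfl }
  rw [Nat.card_congr e, Nat.card_eq_fintype_card, Fintype.card_sigma]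
  have h1 : ∀ x : k, Fintype.card {y : k // y ^ 2 + V.a₁ * x * y + V.a₃ * y =
        x ^ 3 + V.a₂ * x ^ 2 + V.a₄ * x + V.a₆} ≤ 2 := by
    intro x
    by_contra hcon
    push Not at hcon
    obtain ⟨a, b, c, hab, hac, hbc⟩ := Fintype.two_lt_card_iff.1 hcon
    have ha := a.2
    have hb := b.2
    have hc := c.2
    have hab' : a.1 - b.1 ≠ 0 := sub_ne_zero.2 fun h => hab (Subtype.ext h)
    have hac' : a.1 - c.1 ≠ 0 := sub_ne_zero.2 fun h => hac (Subtype.ext h)
    have hbc' : b.1 - c.1 ≠ 0 := sub_ne_zero.2 fun h => hbc (Subtype.ext h)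
    have e1 : (a.1 - b.1) * (a.1 + b.1 + V.a₁ * x + V.a₃) = 0 := by linear_combination ha - hb
    have e2 : (a.1 - c.1) * (a.1 + c.1 + V.a₁ * x + V.a₃) = 0 := by linear_combination ha - hc
    have e3 := (mul_eq_zero.1 e1).resolve_left hab'
    have e4 := (mul_eq_zero.1 e2).resolve_left hac'
    exact hbc' (by linear_combination e3 - e4)
  calc ∑ x : k, Fintype.card {y : k // y ^ 2 + V.a₁ * x * y + V.a₃ * y =
        x ^ 3 + V.a₂ * x ^ 2 + V.a₄ * x + V.a₆} ≤ ∑ _x : k, 2 := Finset.sum_le_sum fun x _ => h1 x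
    _ = 2 * Fintype.card k := by simp [mul_comm]

theorem five_le_card (h6 : (6 : k) ≠ 0) : 5 ≤ Fintype.card k := by
  obtain ⟨p, hp⟩ := CharP.exists k
  obtain ⟨n, hpp, hn⟩ := FiniteField.card k p
  have h2 : p ≠ 2 := by
    rintro rfl
    apply h6
    have h := CharP.cast_eq_zero k 2
    have : (6 : k) = 3 * ((2 : ℕ) : k) := by norm_num
    rw [this, h, mul_zero]
  have h3 : p ≠ 3 := by
    rintro rfl
    apply h6
    have h := CharP.cast_eq_zero k 3
    have : (6 : k) = 2 * ((3 : ℕ) : k) := by norm_num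
    rw [this, h, mul_zero]
  have h5 : 5 ≤ p := by
    by_contra hcon
    push Not at hcon
    have := hpp.two_le
    interval_cases p
    · exact h2 rfl
    · exact h3 rfl
    · exact absurd hpp (by norm_num)
  rw [hn]
  exact h5.trans (Nat.le_self_pow n.2.ne' p)

end local_model

variable {K : Type} [Field K] [NumberField K]

/-- `V` is an integral model of `E`. -/
def IsModel (E : WeierstrassCurve K) (V : WeierstrassCurve (𝓞 K)) : Prop :=
  ∃ C : WeierstrassCurve.VariableChange K, C • E = V.map (algebraMap (𝓞 K) K)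

/-- `V` is an integral model of `E` that is minimal at `v`. -/
def IsMinAt (E : WeierstrassCurve K) (v : HeightOneSpectrum (𝓞 K))
    (V : WeierstrassCurve (𝓞 K)) : Prop :=
  IsModel E V ∧ ∀ W : WeierstrassCurve (𝓞 K), IsModel E W →
    ∀ n : ℕ, V.Δ ∈ v.asIdeal ^ n → W.Δ ∈ v.asIdeal ^ n

/-- reduction at `v` -/
noncomputable def red (v : HeightOneSpectrum (𝓞 K)) (V : WeierstrassCurve (𝓞 K)) :
    WeierstrassCurve (𝓞 K ⧸ v.asIdeal) := V.map (Ideal.Quotient.mk v.asIdeal)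

theorem mk_ne {v : HeightOneSpectrum (𝓞 K)} {x : 𝓞 K} (hx : x ∉ v.asIdeal) :
    Ideal.Quotient.mk v.asIdeal x ≠ 0 := by
  rwa [Ne, Ideal.Quotient.eq_zero_iff_mem]

theorem minimal_good {E : WeierstrassCurve K} {v : HeightOneSpectrum (𝓞 K)}
    {V W : WeierstrassCurve (𝓞 K)} (hV : IsMinAt E v V) (hW : IsModel E W) (h : W.Δ ∉ v.asIdeal) :
    V.Δ ∉ v.asIdeal := by
  intro h1
  apply h
  have := hV.2 W hW 1 (by rwa [pow_one])
  rwa [pow_one] at this

theorem aff_model {E : WeierstrassCurve K} {v : HeightOneSpectrum (𝓞 K)}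
    {V W : WeierstrassCurve (𝓞 K)} (hV : IsModel E V) (hW : IsModel E W)
    (hVΔ : V.Δ ∉ v.asIdeal) (hWΔ : W.Δ ∉ v.asIdeal) (h6 : (6 : 𝓞 K) ∉ v.asIdeal) :
    aff (red v V) = aff (red v W) := by
  obtain ⟨C, hC⟩ := hV
  obtain ⟨C', hC'⟩ := hW
  have h1 : (C * C'⁻¹) • W.map (algebraMap (𝓞 K) K) = V.map (algebraMap (𝓞 K) K) := by
    rw [← hC', ← hC, smul_smul, mul_assoc, inv_mul_cancel, mul_one]
  set D := C * C'⁻¹ with hD
  set u : K := ((D.u⁻¹ : Kˣ) : K) with hu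
  have hΔ : u ^ 12 * algebraMap (𝓞 K) K W.Δ = algebraMap (𝓞 K) K V.Δ := by
    have := congrArg WeierstrassCurve.Δ h1
    rwa [WeierstrassCurve.variableChange_Δ, WeierstrassCurve.map_Δ, WeierstrassCurve.map_Δ] at this
  have hc4 : u ^ 4 * algebraMap (𝓞 K) K W.c₄ = algebraMap (𝓞 K) K V.c₄ := by
    have := congrArg WeierstrassCurve.c₄ h1
    rwa [WeierstrassCurve.variableChange_c₄, WeierstrassCurve.map_c₄,
      WeierstrassCurve.map_c₄] at this
  have hc6 : u ^ 6 * algebraMap (𝓞 K) K W.c₆ = algebraMap (𝓞 K) K V.c₆ := by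
    have := congrArg WeierstrassCurve.c₆ h1
    rwa [WeierstrassCurve.variableChange_c₆, WeierstrassCurve.map_c₆,
      WeierstrassCurve.map_c₆] at this
  obtain ⟨a, c, ha, hc, hac⟩ := exists_frac v u V.Δ W.Δ hVΔ hWΔ (by norm_num : 0 < 12) hΔ
  have e4 : a ^ 4 * W.c₄ = c ^ 4 * V.c₄ := by
    apply IsFractionRing.injective (𝓞 K) K
    rw [map_mul, map_mul, map_pow, map_pow, ← hac, ← hc4]
    ring
  have e6 : a ^ 6 * W.c₆ = c ^ 6 * V.c₆ := by
    apply IsFractionRing.injective (𝓞 K) K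
    rw [map_mul, map_mul, map_pow, map_pow, ← hac, ← hc6]
    ring
  have h6' : (6 : 𝓞 K ⧸ v.asIdeal) ≠ 0 := by
    have := mk_ne h6
    rwa [map_ofNat] at this
  have ha' := mk_ne ha
  have hc' := mk_ne hc
  rw [aff_eq_short h6', aff_eq_short h6']
  unfold red
  rw [WeierstrassCurve.map_c₄, WeierstrassCurve.map_c₄, WeierstrassCurve.map_c₆,
    WeierstrassCurve.map_c₆, ← short_scale ha' (Ideal.Quotient.mk v.asIdeal W.c₄),
    ← short_scale hc' (Ideal.Quotient.mk v.asIdeal V.c₄)]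
  rw [← map_pow, ← map_pow, ← map_pow, ← map_pow, ← map_mul, ← map_mul, ← map_mul, ← map_mul,
    e4, e6]

end Pool.Agent.H341R2.EC
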