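import Pool.Agent.H46.Lib.R_seed8.H341R2.NF.Sys
import Pool.Agent.H46.Lib.R_seed8.H341R2.TwoSided

/-! Euler products over an abstract system of norms. -/

set_option autoImplicit false

namespace Pool.Agent.H341R2

open Complex Filter Topology Polynomial

namespace NormSys

variable (S : NormSys)

theorem tprod_split {Good : S.X → Prop} [DecidablePred Good]
    (hfin : {p | ¬ Good p}.Finite) (G b : S.X → ℂ)
    (hsum : Summable fun p => if Good p then G p else 0) :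
    ∏' p, (if Good p then exp (G p) else b p) =
      (∏ p ∈ hfin.toFinset, b p) * exp (∑' p, if Good p then G p else 0) := by
  have h1 := hsum.hasSum.cexp
  have h2 : HasProd (fun p => if Good p then (1 : ℂ) else b p)
      (∏ p ∈ hfin.toFinset, if Good p then (1 : ℂ) else b p) := by
    apply hasProd_prod_of_ne_finset_one
    intro p hp
    have : Good p := by
      by_contra h
      exact hp (hfin.mem_toFinset.2 h)
    rw [if_pos this]
  have h3 := h2.mul h1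
  have h4 : (fun p => (if Good p then (1 : ℂ) else b p) *
      (exp ∘ fun p => if Good p then G p else 0) p) =
      fun p => if Good p then exp (G p) else b p := by
    funext p
    by_cases hg : Good p <;> simp [hg]
  rw [h4] at h3
  rw [h3.tprod_eq]
  congr 1
  refine Finset.prod_congr rfl fun p hp => ?_
  rw [if_neg (hfin.mem_toFinset.1 hp)]

theorem summable_and_bound {Good : S.X → Prop} [DecidablePred Good] {ε : ℝ} (hε : 0 < ε)
    (G a : S.X → ℂ) {C K : ℝ}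
    (ha : ∀ p, ‖a p‖ ≤ K) (ha0 : ∀ p, ¬ Good p → a p = 0)
    (hG : ∀ p, Good p → ‖G p - a p * ((S.N p : ℝ) ^ (-(1 + ε)) : ℝ)‖ ≤ C * (S.N p : ℝ) ^ (-2 : ℝ)) :
    (Summable fun p => if Good p then G p else 0) ∧
      |(∑' p, if Good p then G p else 0).re - S.E ε fun p => (a p).re| ≤ |C| * S.K2 := by
  have hsa : Summable fun p : S.X => a p * ((S.N p : ℝ) ^ (-(1 + ε)) : ℝ) := by
    refine Summable.of_norm_bounded
      ((S.summable (-(1 + ε)) (by linarith)).mul_left K) fun p => ?_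
    rw [norm_mul, Complex.norm_real, Real.norm_eq_abs, abs_of_nonneg (S.w_nonneg ε p)]
    exact mul_le_mul_of_nonneg_right (ha p) (S.w_nonneg ε p)
  have hbd : ∀ p, ‖(if Good p then G p else 0) - a p * ((S.N p : ℝ) ^ (-(1 + ε)) : ℝ)‖ ≤
      |C| * (S.N p : ℝ) ^ (-2 : ℝ) := by
    intro p
    split_ifs with hg
    · exact (hG p hg).trans (mul_le_mul_of_nonneg_right (le_abs_self C) (by positivity))
    · rw [ha0 p hg]
      simp
      positivity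
  have hsd : Summable fun p : S.X =>
      (if Good p then G p else 0) - a p * ((S.N p : ℝ) ^ (-(1 + ε)) : ℝ) :=
    Summable.of_norm_bounded ((S.summable (-2) (by norm_num)).mul_left |C|) hbd
  have hs : Summable fun p => if Good p then G p else 0 := by
    have := hsd.add hsa
    simpa using this
  refine ⟨hs, ?_⟩
  have h1 : S.E ε (fun p => (a p).re) =
      (∑' p : S.X, a p * ((S.N p : ℝ) ^ (-(1 + ε)) : ℝ)).re := by
    rw [E, Complex.re_tsum hsa]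
    exact tsum_congr fun p => by rw [Complex.re_mul_ofReal]
  rw [h1, ← Complex.sub_re, ← hs.tsum_sub hsa]
  refine (Complex.abs_re_le_norm _).trans ?_
  rw [K2, ← tsum_mul_left]
  exact tsum_of_norm_bounded ((S.summable (-2) (by norm_num)).mul_left |C|).hasSum hbd

/-- the logarithm of a local factor is its first term up to `O(p⁻²)` -/
theorem goodLog_bound (c : ℕ → ℂ) (K w : ℝ) (hK : 0 ≤ K) (p : S.X)
    (hc : ∀ m : ℕ, ‖c (m + 1)‖ ≤ K * ((S.N p : ℝ) ^ w) ^ (m + 1)) (s : ℂ) (hs : w + 1 ≤ s.re) :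
    ‖(∑' m : ℕ, c (m + 1) * ((S.N p : ℕ) : ℂ) ^ (-((m + 1 : ℂ) * s)) / (m + 1 : ℂ)) -
      c 1 * ((S.N p : ℕ) : ℂ) ^ (-s)‖ ≤ 2 * K * (S.N p : ℝ) ^ (-2 : ℝ) := by
  have hp0 : (0 : ℝ) < (S.N p : ℝ) := S.N_pos p
  have hp1 : (1 : ℝ) ≤ (S.N p : ℝ) := by exact_mod_cast (by have := S.two_le p; omega : 1 ≤ S.N p)
  have hp2 : (2 : ℝ) ≤ (S.N p : ℝ) := by exact_mod_cast S.two_le p
  set r : ℝ := (S.N p : ℝ)⁻¹ with hr
  have hr0 : 0 ≤ r := by positivity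
  have hr2 : r ≤ 1 / 2 := by
    rw [hr, one_div]
    exact inv_anti₀ (by norm_num) hp2
  have hterm : ∀ m : ℕ, ‖c (m + 1) * ((S.N p : ℕ) : ℂ) ^ (-((m + 1 : ℂ) * s)) / (m + 1 : ℂ)‖ ≤
      K * r ^ (m + 1) := by
    intro m
    rw [norm_div, norm_mul]
    have h1 : ‖((S.N p : ℕ) : ℂ) ^ (-((m + 1 : ℂ) * s))‖ = ((S.N p : ℝ) ^ (-s.re)) ^ (m + 1) := by
      rw [S.norm_cpow, ← Real.rpow_natCast, ← Real.rpow_mul hp0.le]
      congr 1
      simp
      ring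
    have h2 : (1 : ℝ) ≤ ‖(m + 1 : ℂ)‖ := by
      have : (m + 1 : ℂ) = ((m + 1 : ℕ) : ℂ) := by push_cast; rfl
      rw [this, Complex.norm_natCast]
      push_cast
      linarith [(Nat.cast_nonneg m : (0 : ℝ) ≤ m)]
    rw [h1]
    refine (div_le_self (by positivity) h2).trans ?_
    calc ‖c (m + 1)‖ * ((S.N p : ℝ) ^ (-s.re)) ^ (m + 1)
        ≤ K * ((S.N p : ℝ) ^ w) ^ (m + 1) * ((S.N p : ℝ) ^ (-s.re)) ^ (m + 1) :=
          mul_le_mul_of_nonneg_right (hc m) (by positivity)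
      _ = K * ((S.N p : ℝ) ^ (w + -s.re)) ^ (m + 1) := by
          rw [Real.rpow_add hp0, mul_pow]; ring
      _ ≤ K * r ^ (m + 1) := by
          refine mul_le_mul_of_nonneg_left (pow_le_pow_left₀ (by positivity) ?_ _) hK
          rw [hr, ← Real.rpow_neg_one]
          exact Real.rpow_le_rpow_of_exponent_le hp1 (by linarith)
  have hgeo : Summable fun m : ℕ => K * r ^ (m + 1) := by
    have := (summable_geometric_of_lt_one hr0 (by linarith)).mul_left (K * r)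
    refine this.congr fun m => ?_
    rw [pow_succ]; ring
  have hsum : Summable fun m : ℕ =>
      c (m + 1) * ((S.N p : ℕ) : ℂ) ^ (-((m + 1 : ℂ) * s)) / (m + 1 : ℂ) :=
    Summable.of_norm_bounded hgeo hterm
  rw [hsum.tsum_eq_zero_add]
  have h0 : c (0 + 1) * ((S.N p : ℕ) : ℂ) ^ (-(((0 : ℕ) + 1 : ℂ) * s)) / ((0 : ℕ) + 1 : ℂ) =
      c 1 * ((S.N p : ℕ) : ℂ) ^ (-s) := by
    simp
  rw [h0, add_sub_cancel_left]
  have hgeo2 : HasSum (fun m : ℕ => K * r ^ (m + 1 + 1)) (K * r ^ 2 * (1 - r)⁻¹) := by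
    have := (hasSum_geometric_of_lt_one hr0 (by linarith)).mul_left (K * r ^ 2)
    refine this.congr_fun ?_ |> fun h => h
    intro m
    ring
  have h3 := tsum_of_norm_bounded hgeo2 fun m => hterm (m + 1)
  refine h3.trans ?_
  have h4 : (1 - r)⁻¹ ≤ 2 := by
    rw [inv_le_comm₀ (by linarith) (by norm_num)]
    linarith
  have h5 : (S.N p : ℝ) ^ (-2 : ℝ) = r ^ 2 := by
    rw [hr, Real.rpow_neg hp0.le, inv_pow]
    norm_num
  rw [h5]
  nlinarith [mul_le_mul_of_nonneg_left h4 (by positivity : 0 ≤ K * r ^ 2)]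

/-- The order of a local meromorphic extension of an Euler product at a point of the edge is
minus the mean of the (twisted, normalized) coefficients at primes. -/
theorem two_sided {Good : S.X → Prop} [DecidablePred Good]
    (hfin : {p | ¬ Good p}.Finite) (B : S.X → ℂ[X]) (ρ : ℂ)
    (hB : ∀ p, ¬ Good p → (B p).eval (((S.N p : ℕ) : ℂ) ^ (-ρ)) ≠ 0)
    (a : S.X → ℂ) {K : ℝ} (ha : ∀ p, ‖a p‖ ≤ K) (ha0 : ∀ p, ¬ Good p → a p = 0)
    (G : ℝ → S.X → ℂ) {C : ℝ}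
    (hG : ∀ ε : ℝ, 0 < ε → ∀ p, Good p →
      ‖G ε p - a p * ((S.N p : ℝ) ^ (-(1 + ε)) : ℝ)‖ ≤ C * (S.N p : ℝ) ^ (-2 : ℝ))
    {Λ : ℂ → ℂ} (hΛ : MeromorphicAt Λ ρ)
    (hΛL : ∀ᶠ ε : ℝ in 𝓝[>] 0, Λ (ρ + ε) = ∏' p : S.X, if Good p then cexp (G ε p) else
      ((B p).eval (((S.N p : ℕ) : ℂ) ^ (-(ρ + ε))))⁻¹) :
    ∃ m : ℤ, meromorphicOrderAt Λ ρ = m ∧
      ∃ C' : ℝ, ∀ᶠ ε : ℝ in 𝓝[>] 0, |(S.E ε fun p => (a p).re) + m * S.lam ε| ≤ C' := by
  classical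
  set T := hfin.toFinset with hS
  have hBcont : ∀ p : S.X, ContinuousAt (fun s : ℂ => (B p).eval (((S.N p : ℕ) : ℂ) ^ (-s))) ρ := by
    intro p
    have hpc : ((S.N p : ℕ) : ℂ) ≠ 0 := S.N_ne p
    have h2 : ContinuousAt (fun s : ℂ => ((S.N p : ℕ) : ℂ) ^ (-s)) ρ :=
      (continuousAt_const_cpow hpc).comp continuousAt_neg
    exact (B p).continuous.continuousAt.comp h2
  have hBlog : ∀ p, ¬ Good p → ∃ Cp : ℝ, ∀ᶠ ε : ℝ in 𝓝[>] 0,
      (B p).eval (((S.N p : ℕ) : ℂ) ^ (-(ρ + ε))) ≠ 0 ∧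
      |Real.log ‖(B p).eval (((S.N p : ℕ) : ℂ) ^ (-(ρ + ε)))‖| ≤ Cp := by
    intro p hp
    have h1 : Tendsto (fun ε : ℝ => (B p).eval (((S.N p : ℕ) : ℂ) ^ (-(ρ + ε)))) (𝓝[>] 0)
        (𝓝 ((B p).eval (((S.N p : ℕ) : ℂ) ^ (-ρ)))) := (hBcont p).tendsto.comp (path_tendsto' ρ)
    have h2 := (h1.norm.log (norm_ne_zero_iff.2 (hB p hp))).abs.isBoundedUnder_le
    obtain ⟨Cp, hCp⟩ := h2
    refine ⟨Cp, ?_⟩
    filter_upwards [h1.eventually_ne (hB p hp), Filter.eventually_map.1 hCp] with ε h3 h4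
    exact ⟨h3, h4⟩
  have hBlog' : ∀ p, ∃ Cp : ℝ, ¬ Good p → ∀ᶠ ε : ℝ in 𝓝[>] 0,
      (B p).eval (((S.N p : ℕ) : ℂ) ^ (-(ρ + ε))) ≠ 0 ∧
      |Real.log ‖(B p).eval (((S.N p : ℕ) : ℂ) ^ (-(ρ + ε)))‖| ≤ Cp := by
    intro p
    by_cases hp : Good p
    · exact ⟨0, fun h => absurd hp h⟩
    · obtain ⟨Cp, hCp⟩ := hBlog p hp
      exact ⟨Cp, fun _ => hCp⟩
  choose Cb hCb using hBlog'
  have hbd : ∀ᶠ ε : ℝ in 𝓝[>] 0, ∀ p ∈ T,
      (B p).eval (((S.N p : ℕ) : ℂ) ^ (-(ρ + ε))) ≠ 0 ∧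
      |Real.log ‖(B p).eval (((S.N p : ℕ) : ℂ) ^ (-(ρ + ε)))‖| ≤ Cb p := by
    rw [Filter.eventually_all_finset]
    exact fun p hp => hCb p (hfin.mem_toFinset.1 hp)
  have hmain : ∀ᶠ ε : ℝ in 𝓝[>] 0, Λ (ρ + ε) ≠ 0 ∧
      |(S.E ε fun p => (a p).re) - Real.log ‖Λ (ρ + ε)‖| ≤ (∑ p ∈ T, Cb p) + |C| * S.K2 := by
    filter_upwards [hbd, hΛL, self_mem_nhdsWithin] with ε h1 h2 h3
    have hε : (0 : ℝ) < ε := h3
    obtain ⟨hsum, hbd2⟩ := S.summable_and_bound hε (G ε) a ha ha0 (hG ε hε)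
    have h4 := S.tprod_split hfin (G ε)
      (fun p => ((B p).eval (((S.N p : ℕ) : ℂ) ^ (-(ρ + ε))))⁻¹) hsum
    rw [h4] at h2
    have hprod : 0 < ∏ p ∈ T, ‖(B p).eval (((S.N p : ℕ) : ℂ) ^ (-(ρ + ε)))‖⁻¹ :=
      Finset.prod_pos fun p hp => inv_pos.2 (norm_pos_iff.2 (h1 p hp).1)
    have hnorm : ‖Λ (ρ + ε)‖ = (∏ p ∈ T, ‖(B p).eval (((S.N p : ℕ) : ℂ) ^ (-(ρ + ε)))‖⁻¹) *
        Real.exp (∑' p, if Good p then G ε p else 0).re := by
      rw [h2, norm_mul, Complex.norm_exp, norm_prod]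
      simp only [norm_inv, hS]
    have hpos : 0 < ‖Λ (ρ + ε)‖ := by
      rw [hnorm]
      exact mul_pos hprod (Real.exp_pos _)
    refine ⟨norm_pos_iff.1 hpos, ?_⟩
    have hlog : Real.log ‖Λ (ρ + ε)‖ = (∑ p ∈ T,
        -Real.log ‖(B p).eval (((S.N p : ℕ) : ℂ) ^ (-(ρ + ε)))‖) +
          (∑' p, if Good p then G ε p else 0).re := by
      rw [hnorm, Real.log_mul hprod.ne' (Real.exp_pos _).ne', Real.log_exp, Real.log_prod]
      · congr 1
        exact Finset.sum_congr rfl fun p _ => Real.log_inv _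
      · intro p hp
        exact inv_ne_zero (norm_ne_zero_iff.2 (h1 p hp).1)
    have hC : |∑ p ∈ T, -Real.log ‖(B p).eval (((S.N p : ℕ) : ℂ) ^ (-(ρ + ε)))‖| ≤
        ∑ p ∈ T, Cb p := by
      refine (Finset.abs_sum_le_sum_abs _ _).trans (Finset.sum_le_sum fun p hp => ?_)
      rw [abs_neg]
      exact (h1 p hp).2
    rw [hlog]
    have h5 : (S.E ε fun p => (a p).re) - ((∑ p ∈ T,
        -Real.log ‖(B p).eval (((S.N p : ℕ) : ℂ) ^ (-(ρ + ε)))‖) +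
          (∑' p, if Good p then G ε p else 0).re) =
        -(∑ p ∈ T, -Real.log ‖(B p).eval (((S.N p : ℕ) : ℂ) ^ (-(ρ + ε)))‖) +
          -((∑' p, if Good p then G ε p else 0).re - (S.E ε fun p => (a p).re)) := by ring
    rw [h5]
    refine (abs_add_le _ _).trans (add_le_add ?_ ?_)
    · rwa [abs_neg]
    · rwa [abs_neg]
  have hfreq : ∃ᶠ z in 𝓝[≠] ρ, Λ z ≠ 0 := by
    have hpath : Tendsto (fun ε : ℝ => ρ + ε) (𝓝[>] 0) (𝓝[≠] ρ) := by
      rw [tendsto_nhdsWithin_iff]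
      refine ⟨path_tendsto' ρ, ?_⟩
      filter_upwards [self_mem_nhdsWithin] with ε hε
      have hε' : (0 : ℝ) < ε := hε
      simp only [Set.mem_compl_iff, Set.mem_singleton_iff, add_eq_left]
      exact_mod_cast hε'.ne'
    exact hpath.frequently (hmain.mono fun _ h => h.1).frequently
  have hnt : meromorphicOrderAt Λ ρ ≠ ⊤ := by
    rw [Ne, meromorphicOrderAt_eq_top_iff]
    intro h
    exact hfreq (h.mono fun z hz => not_not.2 hz)
  obtain ⟨m, hm⟩ := WithTop.ne_top_iff_exists.1 hnt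
  refine ⟨m, hm.symm, ?_⟩
  obtain ⟨C₂, hC₂⟩ := log_norm_meromorphic hΛ hm.symm
  obtain ⟨C₃, hC₃⟩ := S.lam_bounded
  refine ⟨(∑ p ∈ T, Cb p) + |C| * S.K2 + C₂ + |(m : ℝ)| * C₃, ?_⟩
  filter_upwards [hmain, hC₂, hC₃] with ε h1 h2 h3
  have h4 : (S.E ε fun p => (a p).re) + m * S.lam ε =
      ((S.E ε fun p => (a p).re) - Real.log ‖Λ (ρ + ε)‖) +
      (Real.log ‖Λ (ρ + ε)‖ - m * Real.log ε) + m * (S.lam ε + Real.log ε) := by ring
  rw [h4]
  refine (abs_add_le _ _).trans (add_le_add ((abs_add_le _ _).trans (add_le_add h1.2 h2.2)) ?_)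
  rw [abs_mul]
  exact mul_le_mul_of_nonneg_left h3 (abs_nonneg _)

end NormSys

end Pool.Agent.H341R2
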